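import Pool.Agent.Q36.AD.Main

set_option autoImplicit false

/-!
# The functions `p(m n + i)` modulo 2, all `m ≥ 1`, `i ≥ 0` (MP_ebc808_nt)

Let `𝓜` be ANY finite set of positive integers and `M ≥ 1`. There is a constant `C` such that every linear
combination `∑_{m ∈ 𝓜} ∑_{i < K} c(m, i) p(m n + i)` modulo 2 with some `c(m, i) ≠ 0` takes both values on
the `n ≡ ρ (mod M)` in every interval `[A, C (A + K)]`. So the functions `n ↦ p(m n + i)` modulo 2 with
distinct pairs `(m, i)` are linearly independent over `F_2`, together with the constant `1`, even on the points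
of any arithmetic progression in any such interval. In particular, for every `k ≥ 2`, the sequences
`n ↦ p(k ^ a n + r)`, `a ≥ 0`, `0 ≤ r < k ^ a`, are linearly independent, so that the parity of `p` is not
`k`-automatic in any base `k`.

The starting file `DilatesAndProgressions` and my file `AutomaticSequences` need `m / g ≢ m' / g (mod 24)`,
`g = gcd(m, m')`, for distinct `m, m' ∈ 𝓜`: then the functions belong to different powers `q ^ (e / 24)`. This
excludes e.g. `{1, 25}`, or powers of a base prime to 6.

Method. Let `D = q ∏ (1 - q ^ n) ^ 24` modulo 2, `K` the algebraic closure of `F_2(D)`; `q` is transcendental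
over `K`, and all sections of `P = ∑ p(n) q ^ n` are in `q ^ (1 / 24) K`. A linear relation over `F_2(q)` splits
(file `Q36/AD/Comp`) into relations `∑_{m ∈ T} p(m (n - l_m) + i_m) = 0` for all `n` in a class modulo `M`,
with all `m (n - l_m) + i_m - 1/24` proportional to `m`: here all terms are in the same class, and the mod 24
argument says nothing. New (file `Q36/AD/Core2`): the automorphism of the field of all `D(ζ q ^ a)` over `k(D)`
(`k` the algebraic closure of `F_2`) which exchanges `D(q ^ N)` and `D(ζ q ^ (1 / N))`, `N = 3 m A` with the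
largest `m` of `T`, transforms this relation into one in which exactly one term has a pole of the largest order
at `q = 0`: the term belonging to the largest `m` and to one root of unity. Its exponent is in the 2-adic class
of the relation if `A` is chosen suitably, a contradiction.
-/

namespace Pool.Agent.Results.MP_ebc808_nt.AllDilates

theorem result (𝓜 : Finset ℕ) (h0 : 0 ∉ 𝓜) (M : ℕ) (hM : 0 < M) :
    ∃ C : ℕ, ∀ (K : ℕ) (c : ℕ → ℕ → ZMod 2) (ρ : ℕ), (∃ m ∈ 𝓜, ∃ i < K, c m i ≠ 0) →
      ∀ (κ : ZMod 2) (A : ℕ), ∃ n, A ≤ n ∧ n ≤ C * (A + K) ∧ n ≡ ρ [MOD M] ∧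
        ∑ m ∈ 𝓜, ∑ i ∈ Finset.range K,
          c m i * (Fintype.card (Nat.Partition (m * n + i)) : ZMod 2) = κ := by
  have hP : ∀ n, PowerSeries.coeff n (Pool.Agent.TH693.PP.P ^ 1) =
      (Fintype.card (Nat.Partition n) : ZMod 2) := fun n => by
    rw [pow_one]
    exact PowerSeries.coeff_mk _ _
  obtain ⟨C, hC⟩ := Pool.Agent.Q36.AD.dilates (t := 1) odd_one 𝓜 h0 M hM
  refine ⟨C, fun K c ρ hc κ A => ?_⟩
  obtain ⟨n, h1, h2, h3, h4⟩ := hC K c ρ hc κ A
  refine ⟨n, h1, h2, h3, ?_⟩
  rw [← h4]
  refine Finset.sum_congr rfl fun m _ => Finset.sum_congr rfl fun i _ => ?_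
  rw [hP]

end Pool.Agent.Results.MP_ebc808_nt.AllDilates
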