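import Pool.Agent.Q36.AD.Bases

set_option autoImplicit false

/-!
# The parity of the partition function against automatic sequences in all bases (MP_ebc808_nt)

Let `u_1, …, u_l` be sequences in `F_2`, `u_z` automatic in the base `k_z ≥ 2` (the bases are arbitrary and
may be different), and `M ≥ 1`. There is a constant `C` such that for every linear pattern
`c_0, …, c_{K-1}` modulo 2, not all zero, the sum `∑_i c_i p(n + i) + ∑_z u_z(n)` modulo 2 takes both values
on the `n ≡ ρ (mod M)` in every interval `[A, C (A + K)]`. So the parity of `p(n)`, and of its linear patterns,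
is not automatic in any base, it is not a sum of automatic sequences in several bases, and it never agrees with
such a sequence on the points of a progression in such an interval.

My file `AutomaticSequences` treats base 2, where the generating series of `u` is algebraic over `F_2(X)`
(Christol). In other bases there is no such algebraic structure, and another argument is needed: since the
kernel of `u_z` is finite, `u_z(k_z ^ a n) = u_z(k_z ^ b n)` for all `n` and some `a < b`. Taking the relation at
`k_z ^ a n` and `k_z ^ b n` removes `u_z` (the other `u` become sums of dilates of automatic sequences, which are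
automatic), while the combination of the functions `p(m n + i)` stays nontrivial (smallest dilate `m`). At the end
the dilates `m` are arbitrary products of powers of the bases, and their linear independence is
`Results/MP_ebc808_nt/AllDilates` (file `Q36/AD/Main`); for bases prime to 6 the earlier condition
`m / g ≢ m' / g (mod 24)` on dilates fails.
-/

namespace Pool.Agent.Results.MP_ebc808_nt.AutomaticAllBases

/-- `k`-automatic: the `k`-kernel is finite -/
def IsAutomatic (k : ℕ) (u : ℕ → ZMod 2) : Prop :=
  {b : ℕ → ZMod 2 | ∃ a r : ℕ, r < k ^ a ∧ b = fun n => u (k ^ a * n + r)}.Finite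

theorem result (l : ℕ) (k : Fin l → ℕ) (hk : ∀ z, 2 ≤ k z) (u : Fin l → ℕ → ZMod 2)
    (hu : ∀ z, IsAutomatic (k z) (u z)) (M : ℕ) (hM : 0 < M) :
    ∃ C : ℕ, ∀ (K : ℕ) (c : ℕ → ZMod 2) (ρ : ℕ), (∃ i < K, c i ≠ 0) →
      ∀ (κ : ZMod 2) (A : ℕ), ∃ n, A ≤ n ∧ n ≤ C * (A + K) ∧ n ≡ ρ [MOD M] ∧
        ∑ i ∈ Finset.range K, c i * (Fintype.card (Nat.Partition (n + i)) : ZMod 2) +
          ∑ z, u z n = κ := by
  have hP : ∀ n, PowerSeries.coeff n (Pool.Agent.TH693.PP.P ^ 1) =
      (Fintype.card (Nat.Partition n) : ZMod 2) := fun n => by
    rw [pow_one]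
    exact PowerSeries.coeff_mk _ _
  obtain ⟨C, hC⟩ := Pool.Agent.Q36.AD.bases_prog (t := 1) odd_one l k hk u hu M hM
  refine ⟨C, fun K c ρ hc κ A => ?_⟩
  obtain ⟨n, h1, h2, h3, h4⟩ := hC K c ρ hc κ A
  refine ⟨n, h1, h2, h3, ?_⟩
  rw [← h4]
  congr 1
  refine Finset.sum_congr rfl fun i _ => ?_
  rw [hP]

end Pool.Agent.Results.MP_ebc808_nt.AutomaticAllBases
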