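import Pool.Agent.Q36.AU.Main

set_option autoImplicit false

/-!
# The parity of the partition function against 2-automatic sequences (MP_ebc808_nt)

Let `𝓜` be a finite set of positive integers such that for any two distinct elements `m, m'` with
`g = gcd(m, m')` one has `m / g ≢ m' / g (mod 24)`, let `u_1, …, u_l` be 2-automatic sequences with values
in `F_2` (the 2-kernel `{n ↦ u(2^k n + r)}` is finite) and `M ≥ 1`. There is a constant `C` such that every
linear combination

  `∑_{m ∈ 𝓜} ∑_{i < K} c(m, i) p(m n + i) + ∑_z ∑_{i < K} c'(z, i) u_z(n + i)`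

modulo 2 in which some `c(m, i) ≠ 0` takes both values on the `n ≡ ρ (mod M)` in every interval
`[A, C (A + K)]`. So on no arithmetic progression and on no interval of this length does the parity of
`p(n)` (or a linear pattern of it) agree, or disagree, throughout with a 2-automatic sequence; for instance
`p(n) + t(n)`, `t` the Thue-Morse sequence, is even and odd in every `[A, C (A + 1)]`.

Method. Let `D = X ∏ (1 - X ^ n) ^ 24` modulo 2, `K` the algebraic closure of `F_2(D)`. The sections of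
`∑ p(m n + i) X ^ n` are fractional powers `X ^ (e / 24)` times elements of `K` (starting files `TH693/QQ`,
`Y627/PT`), and they are nonzero (file `Q36/RD`, Galois action and comparison of poles). Automatic sequences
have generating series algebraic over `F_2(X)` (Christol; `Q36/AU/Aut`). New is the independence: if a
combination `Φ = ∑ A_j(X) g_j` is algebraic over `F_2(X)`, then the coefficients of its expansion in powers of
`X ^ (1 / 24)` over `K` are algebraic over `F_2` (evaluate an algebraic relation at the points of the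
algebraic closure of `F_2`; interpolation), so `Φ` is a polynomial, and the linear relation is excluded by
the starting files. The transcendence measure of `D` gives the interval.
-/

namespace Pool.Agent.Results.MP_ebc808_nt.AutomaticSequences

/-- 2-automatic: the 2-kernel is finite -/
def IsAutomatic (u : ℕ → ZMod 2) : Prop :=
  {b : ℕ → ZMod 2 | ∃ k r : ℕ, r < 2 ^ k ∧ b = fun n => u (2 ^ k * n + r)}.Finite

theorem result (𝓜 : Finset ℕ) (h0 : 0 ∉ 𝓜)
    (hsep : ∀ m ∈ 𝓜, ∀ m' ∈ 𝓜, m ≠ m' → ¬ m / Nat.gcd m m' ≡ m' / Nat.gcd m m' [MOD 24])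
    (l : ℕ) (u : Fin l → ℕ → ZMod 2) (hu : ∀ z, IsAutomatic (u z)) (M : ℕ) (hM : 0 < M) :
    ∃ C : ℕ, ∀ (K : ℕ) (c : ℕ → ℕ → ZMod 2) (c' : Fin l → ℕ → ZMod 2) (ρ : ℕ),
      (∃ m ∈ 𝓜, ∃ i < K, c m i ≠ 0) →
      ∀ (κ : ZMod 2) (A : ℕ), ∃ n, A ≤ n ∧ n ≤ C * (A + K) ∧ n ≡ ρ [MOD M] ∧
        ∑ m ∈ 𝓜, ∑ i ∈ Finset.range K,
          c m i * (Fintype.card (Nat.Partition (m * n + i)) : ZMod 2) +
        ∑ z, ∑ i ∈ Finset.range K, c' z i * u z (n + i) = κ := by
  classical
  have hP : ∀ n, PowerSeries.coeff n Pool.Agent.TH693.PP.P =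
      (Fintype.card (Nat.Partition n) : ZMod 2) := fun n => PowerSeries.coeff_mk _ _
  have hpos : ∀ x : {x // x ∈ 𝓜}, 0 < (x : ℕ) := fun x =>
    Nat.pos_of_ne_zero fun h => h0 (h ▸ x.2)
  obtain ⟨C, hC⟩ := Pool.Agent.Q36.AU.main_aut (Y := {x // x ∈ 𝓜})
    (fun _ => Pool.Agent.TH693.PP.P) (fun _ => 1) (fun _ => Pool.Agent.Y627.PT.sec_P)
    (fun x => (x : ℕ)) hpos (fun _ => by norm_num) (fun x y hxy h => by
      apply hsep x x.2 y y.2 (fun h => hxy (Subtype.ext h))
      rw [one_mul, one_mul] at h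
      have h1 := (Int.modEq_iff_dvd).2 h
      exact (Int.natCast_modEq_iff).1 h1) M hM u hu
  refine ⟨C, fun K c c' ρ hc κ A => ?_⟩
  obtain ⟨n, h1, h2, h3, h4⟩ := hC K (fun x i => c x i) c' ρ (by
    obtain ⟨m, hm, i, hi, hci⟩ := hc
    refine ⟨⟨m, hm⟩, i, hi, hci, ?_⟩
    have := Pool.Agent.Q36.RD.P_proj_ne 1 odd_one (m * M) (Nat.mul_pos (hpos ⟨m, hm⟩) hM)
      (m * ρ + i)
    rwa [pow_one] at this) κ A
  refine ⟨n, h1, h2, h3, ?_⟩
  rw [← h4]
  congr 1
  rw [Finset.sum_coe_sort 𝓜 (fun m => ∑ i ∈ Finset.range K,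
    c m i * PowerSeries.coeff (m * n + i) Pool.Agent.TH693.PP.P)]
  refine Finset.sum_congr rfl fun m _ => Finset.sum_congr rfl fun i _ => ?_
  rw [hP]

end Pool.Agent.Results.MP_ebc808_nt.AutomaticSequences
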