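import Pool.Agent.Q36.PC.Fin

set_option autoImplicit false

/-!
# Counting the values of linear patterns of the partition function modulo 2 (MP_ebc808_nt)

For every nonzero `c : Fin (L + 1) → F_2`, every residue class `ρ` modulo `2 ^ b` and every `κ` in `F_2`
there is `δ > 0` such that for all large `x` the congruence `∑ c_i p(n + i) ≡ κ (mod 2)` holds for at least
`δ √x / log x` of the integers `n ≤ x` with `n ≡ ρ (mod 2 ^ b)`. For instance the parity changes from `n` to
`n + 1`, and also does not change, for at least `δ √x / log x` integers `n ≤ x` in each class modulo `2 ^ b`.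

Method (see `Results/MP_a3366f_nt/PatternCounts`, where all `p_t`, `t` odd, are treated): with
`f = ∏ (1 - X ^ n)` modulo 2 and `3 J + 1 = 2 ^ e` one has `(R / f) f ^ (2 ^ e) = R f ^ (3 J)` for every
polynomial `R`; the coefficient of `f ^ (3 J)` at `n` is that of `D ^ J` at `8 n + J`, `D` the discriminant,
which is known at the products of few primes and at the integers exactly divisible by many primes
`≡ 3 (mod 8)` (Nicolas-Serre). Prescribing divisibility conditions at `8 (n - k) + J` for `k < deg R` and
a variable prime factor for `k = deg R` isolates one term.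
-/

namespace Pool.Agent.Results.MP_ebc808_nt.PatternCounts

theorem result (L : ℕ) (c : Fin (L + 1) → ZMod 2) (hc : c ≠ 0) (b ρ : ℕ) (κ : ZMod 2) :
    ∃ δ : ℝ, 0 < δ ∧ ∃ x0 : ℕ, ∀ x : ℕ, x0 ≤ x → δ * Real.sqrt x / Real.log x ≤
      (((Finset.range (x + 1)).filter (fun n => n % 2 ^ b = ρ % 2 ^ b ∧
        ∑ i : Fin (L + 1), c i * (Fintype.card (Nat.Partition (n + i)) : ZMod 2) = κ)).card : ℝ) := by
  obtain ⟨δ, hδ, x0, h⟩ := Pool.Agent.Q36.PC.pattern_count 1 odd_one L c hc b ρ κ
  refine ⟨δ, hδ, x0, fun x hx => ?_⟩
  have h1 := h x hx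
  simp only [Pool.Agent.H413R3.Part.mp_one] at h1
  exact h1

end Pool.Agent.Results.MP_ebc808_nt.PatternCounts
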